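import Pool.Agent.H24R2.DZ.Spec

/-!
# The series for `GF` (part `SRep` of `Pool.Agent.H24R2.DZ.Spec`)
-/

set_option autoImplicit false

namespace Pool.Agent.W108.SD

open Complex Filter Topology MeasureTheory Set
open Pool.Agent.H24R2.DZ

lemma norm_exp_lt {h : ℕ} (hh : 1 ≤ h) {z : ℂ} (hz : 0 < z.re) : ‖cexp (-((h : ℂ) * z))‖ < 1 := by
  rw [Complex.norm_exp, Real.exp_lt_one_iff]
  have h1 : (0 : ℝ) < h := by exact_mod_cast hh
  have h2 : (-((h : ℂ) * z)).re = -(h * z.re) := by simp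
  rw [h2]
  have := mul_pos h1 hz
  linarith

lemma hasSum_geo {h : ℕ} (hh : 1 ≤ h) {z : ℂ} (hz : 0 < z.re) :
    HasSum (fun m : ℕ => cexp (-(((h * (m + 1) : ℕ) : ℂ) * z))) (1 / (cexp ((h : ℂ) * z) - 1)) := by
  set r := cexp (-((h : ℂ) * z)) with hr
  have hr1 : ‖r‖ < 1 := norm_exp_lt hh hz
  have h1 := (hasSum_geometric_of_norm_lt_one hr1).mul_left r
  have h2 : (fun m : ℕ => r * r ^ m) = fun m : ℕ => cexp (-(((h * (m + 1) : ℕ) : ℂ) * z)) := by
    funext m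
    rw [hr, ← Complex.exp_nat_mul, ← Complex.exp_add]
    congr 1
    push_cast
    ring
  rw [h2] at h1
  have hr0 : r ≠ 0 := Complex.exp_ne_zero _
  have hr2 : 1 - r ≠ 0 := by
    intro h3
    have h4 : r = 1 := by
      rw [sub_eq_zero] at h3
      exact h3.symm
    rw [h4, norm_one] at hr1
    exact lt_irrefl _ hr1
  have h5 : cexp ((h : ℂ) * z) = r⁻¹ := by
    rw [hr, Complex.exp_neg, inv_inv]
  have h6 : r * (1 - r)⁻¹ = 1 / (cexp ((h : ℂ) * z) - 1) := by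
    rw [h5]
    have h7 : r⁻¹ - 1 = (1 - r) / r := by field_simp
    rw [h7, one_div_div, div_eq_mul_inv]
  rw [h6] at h1
  exact h1

lemma hasSum_dvd {h : ℕ} (hh : 1 ≤ h) {z : ℂ} (hz : 0 < z.re) :
    HasSum (fun n : ℕ => if h ∣ n ∧ n ≠ 0 then cexp (-((n : ℂ) * z)) else 0)
      (1 / (cexp ((h : ℂ) * z) - 1)) := by
  have hinj : Function.Injective (fun m : ℕ => h * (m + 1)) := by
    intro a b hab
    have := Nat.eq_of_mul_eq_mul_left (by omega : 0 < h) hab
    omega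
  rw [← hinj.hasSum_iff]
  · have h0 : ((fun n : ℕ => if h ∣ n ∧ n ≠ 0 then cexp (-((n : ℂ) * z)) else 0) ∘
        fun m : ℕ => h * (m + 1)) = fun m : ℕ => cexp (-(((h * (m + 1) : ℕ) : ℂ) * z)) := by
      funext m
      have h1 : h ∣ h * (m + 1) ∧ h * (m + 1) ≠ 0 := ⟨dvd_mul_right _ _, by positivity⟩
      exact if_pos h1
    rw [h0]
    exact hasSum_geo hh hz
  · intro n hn
    by_cases h1 : h ∣ n ∧ n ≠ 0
    · exfalso
      obtain ⟨⟨m, rfl⟩, h2⟩ := h1
      apply hn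
      have h3 : m ≠ 0 := fun h4 => h2 (by rw [h4, mul_zero])
      exact ⟨m - 1, by
        change h * (m - 1 + 1) = h * m
        congr 1
        omega⟩
    · rw [if_neg h1]

lemma cc_eq {y : ℕ} {b : ℕ → ℂ} (hb : ∀ h, y < h → b h = 0) (n : ℕ) (w : ℂ) :
    ∑ h ∈ Finset.Icc 1 y, b h * (if h ∣ n ∧ n ≠ 0 then w else 0) = cc b n * w := by
  unfold cc
  rcases eq_or_ne n 0 with h0 | h0
  · subst h0
    simp
  · rw [Finset.sum_mul]
    have h1 : ∀ h ∈ Finset.Icc 1 y, b h * (if h ∣ n ∧ n ≠ 0 then w else 0) =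
        if h ∈ n.divisors then b h * w else 0 := by
      intro h _
      by_cases h2 : h ∣ n
      · rw [if_pos ⟨h2, h0⟩, if_pos (Nat.mem_divisors.2 ⟨h2, h0⟩)]
      · rw [if_neg (fun h3 => h2 h3.1), if_neg (fun h3 => h2 (Nat.mem_divisors.1 h3).1), mul_zero]
    rw [Finset.sum_congr rfl h1, ← Finset.sum_filter]
    refine Finset.sum_subset ?_ ?_
    · intro h hh
      exact (Finset.mem_filter.1 hh).2
    · intro h hh hn
      have h2 : 1 ≤ h := Nat.pos_of_mem_divisors hh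
      have h3 : y < h := by
        by_contra h4
        exact hn (Finset.mem_filter.2 ⟨Finset.mem_Icc.2 ⟨h2, by omega⟩, hh⟩)
      rw [hb h h3, zero_mul]

theorem srep : SRep := by
  intro y b z hb hy hz
  have h1 : HasSum (fun n : ℕ => ∑ h ∈ Finset.Icc 1 y,
      b h * (if h ∣ n ∧ n ≠ 0 then cexp (-((n : ℂ) * z)) else 0))
      (∑ h ∈ Finset.Icc 1 y, b h * (1 / (cexp ((h : ℂ) * z) - 1))) := by
    refine hasSum_sum fun h hh => ?_
    exact (hasSum_dvd (Finset.mem_Icc.1 hh).1 hz).mul_left (b h)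
  have h2 : (fun n : ℕ => ∑ h ∈ Finset.Icc 1 y,
      b h * (if h ∣ n ∧ n ≠ 0 then cexp (-((n : ℂ) * z)) else 0)) =
      fun n : ℕ => cc b n * cexp (-((n : ℂ) * z)) := by
    funext n
    exact cc_eq hb n _
  rw [h2] at h1
  have h3 : HasSum (fun n : ℕ => if n = 1 then b 1 * cexp (-z) else 0) (b 1 * cexp (-z)) :=
    hasSum_ite_eq 1 _
  have h4 := h1.sub h3
  have h5 : (fun n : ℕ => cc b n * cexp (-((n : ℂ) * z)) - if n = 1 then b 1 * cexp (-z) else 0) =
      fun n : ℕ => (if n ≤ 1 then 0 else cc b n) * cexp (-((n : ℂ) * z)) := by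
    funext n
    rcases n with _ | _ | n
    · simp [cc]
    · simp [cc]
    · simp
  rw [h5] at h4
  rw [h4.tsum_eq]
  have h6 : rr y b 1 / z = ∑ h ∈ Finset.Icc 1 y, b h * (1 / ((h : ℂ) * z)) := by
    unfold rr
    rw [Finset.sum_div, Finset.filter_true_of_mem (fun _ _ => one_dvd _)]
    refine Finset.sum_congr rfl fun h _ => ?_
    rw [div_div, mul_one_div]
  rw [h6]
  unfold GF ff
  simp only [mul_sub, Finset.sum_sub_distrib]
  ring

end Pool.Agent.W108.SD
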